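import Pool.Agent.Lib.MP_d56329_co.Unit

set_option autoImplicit false

open Set Module

namespace Pool.Agent.Results.MP_d56329_co.ProjectivelyInscribable

/-- `P` is a `d`-polytope in `ℝ^d`: the convex hull of a finite set, with nonempty interior. -/
def IsPolytope {d : ℕ} (P : Set (EuclideanSpace ℝ (Fin d))) : Prop :=
  (∃ S : Set (EuclideanSpace ℝ (Fin d)), S.Finite ∧ P = convexHull ℝ S) ∧ (interior P).Nonempty

/-- The face lattice of `P`, ordered by inclusion: the empty set, `P` itself and the sets of the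
points of `P` at which a linear functional attains its maximum over `P`. -/
abbrev FaceLattice {d : ℕ} (P : Set (EuclideanSpace ℝ (Fin d))) : Type :=
  {F : Set (EuclideanSpace ℝ (Fin d)) // IsExposed ℝ P F}

/-- `F` is a facet of `P`: a nonempty face of dimension `d - 1`. -/
def IsFacet {d : ℕ} (P F : Set (EuclideanSpace ℝ (Fin d))) : Prop :=
  IsExposed ℝ P F ∧ F.Nonempty ∧ finrank ℝ (vectorSpan ℝ F) + 1 = d

/-- The combinatorial type of `P` is inscribable: a `d`-polytope `Q` with an isomorphic face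
lattice has all its vertices on a common sphere. -/
def Inscribable {d : ℕ} (P : Set (EuclideanSpace ℝ (Fin d))) : Prop :=
  ∃ Q : Set (EuclideanSpace ℝ (Fin d)), IsPolytope Q ∧ Nonempty (FaceLattice P ≃o FaceLattice Q) ∧
    ∃ (c : EuclideanSpace ℝ (Fin d)) (r : ℝ), 0 < r ∧ Q.extremePoints ℝ ⊆ Metric.sphere c r

/-- The projective map of `ℝ^d` given by a linear automorphism of `ℝ^d × ℝ`:
`x ↦ u / h` when `L (x, 1) = (u, h)`. -/
noncomputable def proj {d : ℕ}
    (L : (EuclideanSpace ℝ (Fin d) × ℝ) ≃ₗ[ℝ] (EuclideanSpace ℝ (Fin d) × ℝ))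
    (x : EuclideanSpace ℝ (Fin d)) : EuclideanSpace ℝ (Fin d) :=
  (L (x, 1)).2⁻¹ • (L (x, 1)).1

/-- Every `d`-polytope with at most `d + 3` facets is inscribable; moreover it is mapped by an
admissible projective transformation onto a polytope inscribed in the unit sphere. -/
theorem result (d : ℕ) (hd : 1 ≤ d) (P : Set (EuclideanSpace ℝ (Fin d))) (hP : IsPolytope P)
    (hfac : {F | IsFacet P F}.encard ≤ d + 3) :
    Inscribable P ∧
    ∃ L : (EuclideanSpace ℝ (Fin d) × ℝ) ≃ₗ[ℝ] (EuclideanSpace ℝ (Fin d) × ℝ),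
      (∀ x ∈ P, 0 < (L (x, 1)).2) ∧
      IsPolytope (proj L '' P) ∧
      (proj L '' P).extremePoints ℝ = proj L '' (P.extremePoints ℝ) ∧
      (proj L '' P).extremePoints ℝ ⊆ Metric.sphere 0 1 ∧
      ∃ φ : FaceLattice P ≃o FaceLattice (proj L '' P), ∀ F, (φ F).1 = proj L '' F.1 := by
  obtain ⟨⟨S₀, hS₀, rfl⟩, hint⟩ := hP
  obtain ⟨d, rfl⟩ : ∃ k, d = k + 1 := ⟨d - 1, by omega⟩
  obtain ⟨S, rfl⟩ := hS₀.exists_finset_coe
  have hncard : (Pool.Agent.Lib.MP_d56329_co.facets
      (S : Set (EuclideanSpace ℝ (Fin (d + 1))))).ncard ≤ (d + 1) + 3 := by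
    have h1 : (Pool.Agent.Lib.MP_d56329_co.facets
        (S : Set (EuclideanSpace ℝ (Fin (d + 1))))).Finite :=
      Pool.Agent.Lib.MP_d56329_co.finite_facets S.finite_toSet
    have h2 : {F | IsFacet (convexHull ℝ (S : Set (EuclideanSpace ℝ (Fin (d + 1))))) F} =
        Pool.Agent.Lib.MP_d56329_co.facets (S : Set (EuclideanSpace ℝ (Fin (d + 1)))) := rfl
    rw [h2, ← h1.cast_ncard_eq] at hfac
    exact_mod_cast hfac
  obtain ⟨L, hL, hL1⟩ := Pool.Agent.Lib.MP_d56329_co.exists_unit S hint hncard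
  have hpoly : IsPolytope (proj L '' convexHull ℝ (S : Set (EuclideanSpace ℝ (Fin (d + 1))))) := by
    refine ⟨⟨proj L '' (S : Set (EuclideanSpace ℝ (Fin (d + 1)))), S.finite_toSet.image _, ?_⟩, ?_⟩
    · exact Pool.Agent.Lib.MP_d56329_co.image_convexHull L
        (fun x hx => hL x (subset_convexHull ℝ _ hx))
    · exact Pool.Agent.Lib.MP_d56329_co.interior_pr L hL hint
  have hext : (proj L '' convexHull ℝ (S : Set (EuclideanSpace ℝ (Fin (d + 1))))).extremePoints ℝ =
      proj L '' ((convexHull ℝ (S : Set (EuclideanSpace ℝ (Fin (d + 1))))).extremePoints ℝ) :=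
    (Pool.Agent.Lib.MP_d56329_co.image_extremePoints_pr L hL).symm
  have hsph : (proj L '' convexHull ℝ (S : Set (EuclideanSpace ℝ (Fin (d + 1))))).extremePoints ℝ ⊆
      Metric.sphere 0 1 := by
    rw [hext]
    rintro _ ⟨x, hx, rfl⟩
    rw [mem_sphere_zero_iff_norm]
    exact hL1 x hx
  refine ⟨⟨_, hpoly, ⟨Pool.Agent.Lib.MP_d56329_co.faceIso L hL⟩, 0, 1, one_pos, hsph⟩,
    L, hL, hpoly, hext, hsph, Pool.Agent.Lib.MP_d56329_co.faceIso L hL, fun F => ?_⟩
  rfl

end Pool.Agent.Results.MP_d56329_co.ProjectivelyInscribable
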